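import Pool.Agent.Lib.MP_d9d638_lc.KS.B.AsmB
import Pool.Agent.Lib.MP_d9d638_lc.KS.FactsA
import Pool.Agent.Lib.MP_d9d638_lc.KS.B.St

/-!
# It is consistent that CH holds, a Kurepa tree exists, and every Kurepa tree is strong

`ModelZFC M` (file `MP_5db68c_lc/Defs.lean`) says that `(M, ∈)` satisfies all axioms of ZFC, with
separation and replacement for all formulas with parameters. `StIn M` (file `KS/B/St.lean`) says
that, inside `(M, ∈)`: the continuum hypothesis holds, there is a Kurepa tree, and every Kurepa
tree is strong, that is, its space of cofinal branches maps continuously onto `2^{ω₁}`.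
-/

set_option autoImplicit false

namespace Pool.Agent.Results.MP_d9d638_lc.AllStrong

open Pool.Agent.StarRoth.BV Pool.Agent.KSt

/-- There is a model of ZFC in which CH holds, a Kurepa tree exists, and every Kurepa tree is
strong. -/
theorem result : ∃ (M : Type) (_ : Membership M M), ModelZFC M ∧ StIn M :=
  consistency_of_facts facts

end Pool.Agent.Results.MP_d9d638_lc.AllStrong
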