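import Pool.Agent.Lib.MP_d9d638_lc.Forward
import Pool.Agent.Lib.MP_d9d638_lc.Backward2

/-!
A strong Kurepa tree exists if and only if diamond plus holds.
-/

namespace Pool.Agent.Results.MP_d9d638_lc.DiamondPlus

theorem result :
    (∃ (T : Type) (_ : PartialOrder T), _root_.MP_d9d638_lc.IsStrongKurepa T) ↔
      _root_.MP_d9d638_lc.DiamondPlus := by
  constructor
  · rintro ⟨T, hT, ⟨hO, -⟩, f, hf, hs⟩
    exact _root_.MP_d9d638_lc.diamondPlus_of_strong hO f hf hs
  · exact _root_.MP_d9d638_lc.exists_strong_of_diamondPlus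

end Pool.Agent.Results.MP_d9d638_lc.DiamondPlus
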