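import Pool.Agent.Lib.MP_d9d638_lc.Nwd

/-!
Every strong Kurepa tree has a closed nowhere dense set of branches that maps onto `2^{ω₁}`.
-/

namespace Pool.Agent.Results.MP_d9d638_lc.NowhereDense

theorem result (T : Type) [PartialOrder T] (hT : _root_.MP_d9d638_lc.IsStrongKurepa T) :
    ∃ F : Set (_root_.MP_d9d638_lc.Branch T), IsClosed F ∧ interior F = ∅ ∧
      ∃ g : F → _root_.MP_d9d638_lc.Two, Continuous g ∧ Function.Surjective g := by
  obtain ⟨⟨hO, -⟩, f, hf, hs⟩ := hT
  exact _root_.MP_d9d638_lc.nwd hO hf hs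

end Pool.Agent.Results.MP_d9d638_lc.NowhereDense
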