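import Pool.Agent.Lib.MP_d9d638_lc.Pieces

/-!
A strong Kurepa tree cannot be cut into `ℵ₁` pieces none of which maps onto `2^{ω₁}`.
-/

namespace Pool.Agent.Results.MP_d9d638_lc.Pieces

theorem result (T : Type) [PartialOrder T] (hT : _root_.MP_d9d638_lc.IsStrongKurepa T)
    (K : _root_.MP_d9d638_lc.Om → Set (_root_.MP_d9d638_lc.Branch T))
    (hK : ⋃ i, K i = Set.univ) :
    ∃ i, ∃ g : K i → _root_.MP_d9d638_lc.Two, Continuous g ∧ Function.Surjective g := by
  obtain ⟨-, f, hf, hs⟩ := hT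
  exact _root_.MP_d9d638_lc.pieces hf hs K hK

end Pool.Agent.Results.MP_d9d638_lc.Pieces
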